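import Mathlib

/-!
A lattice embeds into the lattice of subspaces of some (left) vector space over a division
ring if and only if it embeds into the lattice of subspaces of some vector space over a field:
restrict scalars to the centre of the division ring.
-/

namespace Pool.Agent.Results.MP_332034_al.RestrictScalars

universe u v w

theorem result (L : Type u) [Lattice L] :
    (∃ (D : Type v) (_ : DivisionRing D) (V : Type w) (_ : AddCommGroup V) (_ : Module D V)
        (f : LatticeHom L (Submodule D V)), Function.Injective f) ↔
    (∃ (F : Type v) (_ : Field F) (W : Type w) (_ : AddCommGroup W) (_ : Module F W)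
        (f : LatticeHom L (Submodule F W)), Function.Injective f) := by
  constructor
  · rintro ⟨D, _, V, _, _, f, hf⟩
    refine ⟨Subring.center D, inferInstance, V, inferInstance, inferInstance, 
      { toFun := fun x => (f x).restrictScalars (Subring.center D)
        map_sup' := ?_
        map_inf' := ?_ }, ?_⟩
    · intro a b
      rw [map_sup]
      apply le_antisymm
      · intro x hx
        rw [Submodule.restrictScalars_mem, Submodule.mem_sup] at hx
        rw [Submodule.mem_sup]
        exact hx
      · intro x hx
        rw [Submodule.mem_sup] at hx
        rw [Submodule.restrictScalars_mem, Submodule.mem_sup]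
        exact hx
    · intro a b
      rw [map_inf]
      rfl
    · intro a b hab
      exact hf (Submodule.restrictScalars_injective _ _ _ hab)
  · rintro ⟨F, _, W, _, _, f, hf⟩
    exact ⟨F, inferInstance, W, inferInstance, inferInstance, f, hf⟩

end Pool.Agent.Results.MP_332034_al.RestrictScalars
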